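import Mathlib

/-!
# Filtrations of a finite-dimensional vector space with integer weights

`two_filtrations`: for decreasing filtrations `F`, `G`, `H` with `F x ⊓ G y ≤ H (x + y)` the sum of the
dimensions of `H z`, `1 ≤ z ≤ N + M`, is at least the sum of the dimensions of `F x`, `1 ≤ x ≤ N`, and of
`G y`, `1 ≤ y ≤ M`. `exists_adapted`: a basis adapted to a filtration.
-/

set_option autoImplicit false

namespace Pool.Agent.RV

open Module

variable {K V : Type*} [Field K] [AddCommGroup V] [Module K V] [FiniteDimensional K V]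

/-- `dim G ∩ A - dim G ∩ B ≤ dim W ∩ A - dim W ∩ B` for `B ≤ A`, `G ∩ A ≤ W` -/
theorem finrank_step (A B G W : Submodule K V) (hBA : B ≤ A) (h : G ⊓ A ≤ W) :
    finrank K ↥(G ⊓ A) + finrank K ↥(W ⊓ B) ≤ finrank K ↥(W ⊓ A) + finrank K ↥(G ⊓ B) := by
  have h1 := Submodule.finrank_sup_add_finrank_inf_eq (G ⊓ A) (W ⊓ B)
  have h2 : (G ⊓ A) ⊔ (W ⊓ B) ≤ W ⊓ A :=
    sup_le (le_inf h inf_le_right) (inf_le_inf le_rfl hBA)
  have h3 : (G ⊓ A) ⊓ (W ⊓ B) ≤ G ⊓ B :=
    le_inf (inf_le_left.trans inf_le_left) (inf_le_right.trans inf_le_right)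
  have h4 := Submodule.finrank_mono h2
  have h5 := Submodule.finrank_mono h3
  omega

/-- two decreasing filtrations, the first of which vanishes at `N` -/
theorem two_filtrations_aux (F G H : ℕ → Submodule K V) (N M : ℕ) (hF : Antitone F) (hF0 : F 0 = ⊤)
    (hFN : F N = ⊥) (hG0 : G 0 = ⊤) (hH : Antitone H) (h : ∀ x y, F x ⊓ G y ≤ H (x + y)) :
    ∑ x ∈ Finset.range N, finrank K (F (x + 1)) + ∑ y ∈ Finset.range M, finrank K (G (y + 1)) ≤
      ∑ z ∈ Finset.range (N + M), finrank K (H (z + 1)) := by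
  -- the dimension of `W` is the sum of the steps
  have tele : ∀ W : Submodule K V, ((finrank K W : ℕ) : ℤ) =
      ∑ x ∈ Finset.range N, ((finrank K ↥(W ⊓ F x) : ℤ) - finrank K ↥(W ⊓ F (x + 1))) := by
    intro W
    rw [Finset.sum_range_sub' (fun x => (finrank K ↥(W ⊓ F x) : ℤ)), hFN, hF0, inf_top_eq, inf_bot_eq,
      finrank_bot]
    simp
  -- the step for `H z`
  have key : ∀ z x, x < N → 1 ≤ z → ((finrank K ↥(G (z - x) ⊓ F x) : ℤ) - finrank K ↥(G (z - x) ⊓ F (x + 1))) ≤
      (finrank K ↥(H z ⊓ F x) : ℤ) - finrank K ↥(H z ⊓ F (x + 1)) := by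
    intro z x _ _
    have h1 := finrank_step (F x) (F (x + 1)) (G (z - x)) (H z) (hF (Nat.le_succ x)) (by
      rw [inf_comm]
      exact (h x (z - x)).trans (hH (by omega)))
    have h2 : ((finrank K ↥(G (z - x) ⊓ F x) + finrank K ↥(H z ⊓ F (x + 1)) : ℕ) : ℤ) ≤
      ((finrank K ↥(H z ⊓ F x) + finrank K ↥(G (z - x) ⊓ F (x + 1)) : ℕ) : ℤ) := by exact_mod_cast h1
    push_cast at h2
    linarith
  have nonneg : ∀ y x, 0 ≤ ((finrank K ↥(G y ⊓ F x) : ℤ) - finrank K ↥(G y ⊓ F (x + 1))) := by
    intro y x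
    have := Submodule.finrank_mono (inf_le_inf (le_refl (G y)) (hF (Nat.le_succ x)))
    have h2 : (finrank K ↥(G y ⊓ F (x + 1)) : ℤ) ≤ finrank K ↥(G y ⊓ F x) := by exact_mod_cast this
    linarith
  have main : ∑ z ∈ Finset.range (N + M), ((finrank K (H (z + 1)) : ℕ) : ℤ) ≥
      ∑ x ∈ Finset.range N, ∑ z ∈ Finset.range (N + M),
        ((finrank K ↥(G (z + 1 - x) ⊓ F x) : ℤ) - finrank K ↥(G (z + 1 - x) ⊓ F (x + 1))) := by
    rw [Finset.sum_comm]
    refine Finset.sum_le_sum fun z _ => ?_
    rw [tele]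
    exact Finset.sum_le_sum fun x hx => key (z + 1) x (Finset.mem_range.1 hx) (by omega)
  -- for fixed `x`: the terms `z + 1 ≤ x` and the terms `z + 1 = x + y + 1`
  have inner : ∀ x ∈ Finset.range N, (x : ℤ) * ((finrank K (F x) : ℤ) - finrank K (F (x + 1))) +
      ∑ y ∈ Finset.range M, ((finrank K ↥(G (y + 1) ⊓ F x) : ℤ) - finrank K ↥(G (y + 1) ⊓ F (x + 1))) ≤
      ∑ z ∈ Finset.range (N + M),
        ((finrank K ↥(G (z + 1 - x) ⊓ F x) : ℤ) - finrank K ↥(G (z + 1 - x) ⊓ F (x + 1))) := by
    intro x hx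
    have hxN := Finset.mem_range.1 hx
    have hsub : Finset.range (x + M) ⊆ Finset.range (N + M) := by
      intro z hz
      rw [Finset.mem_range] at hz ⊢
      omega
    refine le_trans ?_ (Finset.sum_le_sum_of_subset_of_nonneg hsub fun z _ _ => nonneg _ _)
    rw [Finset.sum_range_add]
    refine add_le_add (le_of_eq ?_) (le_of_eq ?_)
    · rw [Finset.sum_congr rfl (g := fun _ => ((finrank K (F x) : ℤ) - finrank K (F (x + 1))))]
      · rw [Finset.sum_const, Finset.card_range, nsmul_eq_mul]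
      · intro z hz
        have hz' := Finset.mem_range.1 hz
        have : z + 1 - x = 0 := by omega
        rw [this, hG0, top_inf_eq, top_inf_eq]
    · refine Finset.sum_congr rfl fun y _ => ?_
      have : x + y + 1 - x = y + 1 := by omega
      rw [this]
  have e1 : ∑ x ∈ Finset.range N, (x : ℤ) * ((finrank K (F x) : ℤ) - finrank K (F (x + 1))) =
      ∑ x ∈ Finset.range N, (finrank K (F (x + 1)) : ℤ) := by
    have h1 : ∀ n, ∑ x ∈ Finset.range n, (x : ℤ) * ((finrank K (F x) : ℤ) - finrank K (F (x + 1))) =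
        ∑ x ∈ Finset.range n, (finrank K (F (x + 1)) : ℤ) - n * finrank K (F n) := by
      intro n
      induction n with
      | zero => simp
      | succ n ih =>
        rw [Finset.sum_range_succ, Finset.sum_range_succ, ih]
        push_cast
        ring
    rw [h1 N, hFN]
    simp
  have e2 : ∑ x ∈ Finset.range N, ∑ y ∈ Finset.range M,
      ((finrank K ↥(G (y + 1) ⊓ F x) : ℤ) - finrank K ↥(G (y + 1) ⊓ F (x + 1))) =
      ∑ y ∈ Finset.range M, (finrank K (G (y + 1)) : ℤ) := by
    rw [Finset.sum_comm]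
    exact Finset.sum_congr rfl fun y _ => (tele _).symm
  have h1 := Finset.sum_le_sum inner
  rw [Finset.sum_add_distrib, e1, e2] at h1
  have h2 := h1.trans main
  have h3 : ((∑ x ∈ Finset.range N, finrank K (F (x + 1)) + ∑ y ∈ Finset.range M, finrank K (G (y + 1)) : ℕ) : ℤ) ≤
      ((∑ z ∈ Finset.range (N + M), finrank K (H (z + 1)) : ℕ) : ℤ) := by
    push_cast
    linarith
  exact_mod_cast h3

/-- the filtration truncated at `N` -/
def trunc (N : ℕ) (F : ℕ → Submodule K V) (x : ℕ) : Submodule K V := if x ≤ N then F x else ⊥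

omit [FiniteDimensional K V] in
theorem trunc_anti {F : ℕ → Submodule K V} (hF : Antitone F) (N : ℕ) : Antitone (trunc N F) := by
  intro x y hxy
  unfold trunc
  split_ifs with h1 h2
  · exact hF hxy
  · omega
  · exact bot_le
  · exact le_rfl

omit [FiniteDimensional K V] in
theorem trunc_sum (F : ℕ → Submodule K V) (N k : ℕ) :
    ∑ x ∈ Finset.range (N + k), finrank K (trunc N F (x + 1)) = ∑ x ∈ Finset.range N, finrank K (F (x + 1)) := by
  rw [Finset.sum_range_add]
  rw [Finset.sum_congr rfl (g := fun x => finrank K (F (x + 1)))]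
  · rw [add_eq_left]
    refine Finset.sum_eq_zero fun x _ => ?_
    unfold trunc
    rw [if_neg (by omega), finrank_bot]
  · intro x hx
    have := Finset.mem_range.1 hx
    unfold trunc
    rw [if_pos (by omega)]

/-- two decreasing filtrations -/
theorem two_filtrations (F G H : ℕ → Submodule K V) (N M : ℕ) (hF : Antitone F) (hF0 : F 0 = ⊤)
    (hG0 : G 0 = ⊤) (hH : Antitone H) (h : ∀ x y, F x ⊓ G y ≤ H (x + y)) :
    ∑ x ∈ Finset.range N, finrank K (F (x + 1)) + ∑ y ∈ Finset.range M, finrank K (G (y + 1)) ≤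
      ∑ z ∈ Finset.range (N + M), finrank K (H (z + 1)) := by
  have h1 := two_filtrations_aux (trunc N F) (trunc M G) (trunc (N + M) H) (N + 1) M
    (trunc_anti hF N) (by simp [trunc, hF0]) (by simp [trunc]) (by simp [trunc, hG0])
    (trunc_anti hH _) ?_
  · rw [trunc_sum F N 1, show N + 1 + M = (N + M) + 1 by ring, trunc_sum H (N + M) 1] at h1
    have h2 := trunc_sum G M 0
    rw [add_zero] at h2
    rwa [h2] at h1
  · intro x y
    unfold trunc
    split_ifs with h1 h2 h3 h4
    · exact h x y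
    · omega
    all_goals simp

/-- a family of filtrations with weights supported in `T` -/
structure IsFil {ι : Type*} (T : Finset ι) (H : (ι → ℕ) → ℕ → Submodule K V) : Prop where
  zero : ∀ t, H t 0 = ⊤
  anti : ∀ t, Antitone (H t)
  inf_le : ∀ t t', (∀ i ∉ T, t i = 0) → (∀ i ∉ T, t' i = 0) → ∀ x y, H t x ⊓ H t' y ≤ H (t + t') (x + y)

/-- the multiples of a weight -/
theorem IsFil.smul_sum {ι : Type*} {T : Finset ι} {H : (ι → ℕ) → ℕ → Submodule K V} (h : IsFil T H) (t : ι → ℕ)
    (ht : ∀ i ∉ T, t i = 0) (N k : ℕ) :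
    k * ∑ x ∈ Finset.range N, finrank K (H t (x + 1)) ≤
      ∑ z ∈ Finset.range (k * N), finrank K (H (k • t) (z + 1)) := by
  induction k with
  | zero => simp
  | succ k ih =>
    have h1 := two_filtrations (H (k • t)) (H t) (H ((k + 1) • t)) (k * N) N (h.anti _) (h.zero _) (h.zero _)
      (h.anti _) (fun x y => by
        rw [add_smul, one_smul]
        exact h.inf_le _ _ (fun i hi => by simp [ht i hi]) ht _ _)
    rw [add_mul, one_mul, add_mul, one_mul]
    exact (Nat.add_le_add_right ih _).trans h1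

/-- **Superadditivity.** -/
theorem IsFil.sum_le {ι : Type*} [Fintype ι] [DecidableEq ι] {T : Finset ι} {H : (ι → ℕ) → ℕ → Submodule K V}
    (h : IsFil T H) (t : ι → ℕ) (ht : ∀ i ∉ T, t i = 0) (N : ι → ℕ) :
    ∑ i, t i * ∑ x ∈ Finset.range (N i), finrank K (H (Pi.single i 1) (x + 1)) ≤
      ∑ z ∈ Finset.range (∑ i, t i * N i), finrank K (H t (z + 1)) := by
  have main : ∀ U ⊆ T, ∑ i ∈ U, t i * ∑ x ∈ Finset.range (N i), finrank K (H (Pi.single i 1) (x + 1)) ≤
      ∑ z ∈ Finset.range (∑ i ∈ U, t i * N i), finrank K (H (∑ i ∈ U, Pi.single i (t i)) (z + 1)) := by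
    intro U
    induction U using Finset.induction_on with
    | empty => simp
    | insert i U hi ih =>
      intro hU
      have hiT : i ∈ T := hU (Finset.mem_insert_self i U)
      have hUT : U ⊆ T := (Finset.subset_insert i U).trans hU
      rw [Finset.sum_insert hi, Finset.sum_insert hi, Finset.sum_insert hi]
      have hs : ∀ c : ℕ, ∀ j ∉ T, (Pi.single i c : ι → ℕ) j = 0 := fun c j hj => by
        rw [Pi.single_apply, if_neg (show ¬ j = i from fun e => hj (by rw [e]; exact hiT))]
      have h1 := h.smul_sum (Pi.single i 1) (hs 1) (N i) (t i)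
      have h0 : t i • (Pi.single i 1 : ι → ℕ) = Pi.single i (t i) := by
        rw [← Pi.single_smul]
        simp
      rw [h0] at h1
      have h2 := two_filtrations (H (Pi.single i (t i))) (H (∑ i ∈ U, Pi.single i (t i)))
        (H (Pi.single i (t i) + ∑ i ∈ U, Pi.single i (t i))) (t i * N i) (∑ i ∈ U, t i * N i) (h.anti _) (h.zero _)
        (h.zero _) (h.anti _) (fun x y => h.inf_le _ _ (hs _) (fun j hj => by
          rw [Finset.sum_apply]
          refine Finset.sum_eq_zero fun l hl => ?_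
          rw [Pi.single_apply, if_neg (show ¬ j = l from fun e => hj (by rw [e]; exact hUT hl))]) _ _)
      exact (add_le_add h1 (ih hUT)).trans h2
  have h3 := main T (Finset.Subset.refl T)
  have e1 : ∑ i, t i * ∑ x ∈ Finset.range (N i), finrank K (H (Pi.single i 1) (x + 1)) =
      ∑ i ∈ T, t i * ∑ x ∈ Finset.range (N i), finrank K (H (Pi.single i 1) (x + 1)) :=
    (Finset.sum_subset (Finset.subset_univ T) fun i _ hi => by rw [ht i hi, zero_mul]).symm
  have e2 : ∑ i, t i * N i = ∑ i ∈ T, t i * N i :=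
    (Finset.sum_subset (Finset.subset_univ T) fun i _ hi => by rw [ht i hi, zero_mul]).symm
  have h4 : ∑ i ∈ T, Pi.single i (t i) = t := by
    rw [Finset.sum_subset (Finset.subset_univ T) fun i _ hi => by rw [ht i hi, Pi.single_zero]]
    exact Finset.univ_sum_single t
  rw [h4] at h3
  rw [e1, e2]
  exact h3

omit [FiniteDimensional K V] in
/-- an adapted basis of a filtration, as a set -/
theorem exists_adapted_set (H : ℕ → Submodule K V) (hH : Antitone H) (Z : ℕ) :
    ∀ k ≤ Z, ∃ B : Set V, LinearIndepOn K id B ∧ B ⊆ H (Z - k) ∧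
      ∀ z, Z - k ≤ z → z ≤ Z → H z ≤ Submodule.span K (B ∩ H z) := by
  intro k
  induction k with
  | zero =>
    intro _
    obtain ⟨B, hB, hspan, hli⟩ := exists_linearIndepOn_id_extension (K := K) (linearIndependent_empty K V)
      (Set.empty_subset (H Z : Set V))
    obtain ⟨h1, h2⟩ := hli
    refine ⟨B, h2, hB, fun z hz hz' => ?_⟩
    have : z = Z := by omega
    subst this
    rw [Set.inter_eq_left.2 hB]
    exact h1
  | succ k ih =>
    intro hk
    obtain ⟨B, hli, hB, hspan⟩ := ih (by omega)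
    obtain ⟨C, hC, hBC, h1, h2⟩ := exists_linearIndepOn_id_extension hli
      (hB.trans (hH (show Z - (k + 1) ≤ Z - k by omega)) : B ⊆ (H (Z - (k + 1)) : Set V))
    refine ⟨C, h2, hC, fun z hz hz' => ?_⟩
    by_cases hzk : Z - k ≤ z
    · exact (hspan z hzk hz').trans (Submodule.span_mono (Set.inter_subset_inter_left _ hBC))
    · have : z = Z - (k + 1) := by omega
      subst this
      rw [Set.inter_eq_left.2 hC]
      exact h1

/-- **An adapted basis.** -/
theorem exists_adapted (H : ℕ → Submodule K V) (hH : Antitone H) (hH0 : H 0 = ⊤) (Z : ℕ) :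
    ∃ (b : Basis (Fin (finrank K V)) K V) (μ : Fin (finrank K V) → ℕ), (∀ j, b j ∈ H (μ j)) ∧ (∀ j, μ j ≤ Z) ∧
      ∑ z ∈ Finset.range Z, finrank K (H (z + 1)) ≤ ∑ j, μ j := by
  classical
  obtain ⟨B, hli, -, hspan⟩ := exists_adapted_set H hH Z Z le_rfl
  rw [Nat.sub_self] at hspan
  have htop : ⊤ ≤ Submodule.span K (Set.range ((↑) : B → V)) := by
    have h1 := hspan 0 le_rfl (Nat.zero_le _)
    rw [hH0] at h1
    rw [Subtype.range_coe]
    exact h1.trans (Submodule.span_mono Set.inter_subset_left)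
  let b₀ : Basis B K V := Basis.mk hli.linearIndependent htop
  have hfin : Fintype B := FiniteDimensional.fintypeBasisIndex b₀
  let e : B ≃ Fin (finrank K V) := Fintype.equivFinOfCardEq (finrank_eq_card_basis b₀).symm
  let b := b₀.reindex e
  have hb : ∀ j, b j = (e.symm j : V) := by
    intro j
    simp [b, b₀]
  refine ⟨b, fun j => Nat.findGreatest (fun z => b j ∈ H z) Z, fun j => ?_, fun j => Nat.findGreatest_le _, ?_⟩
  · exact Nat.findGreatest_spec (P := fun z => b j ∈ H z) (Nat.zero_le Z) (by rw [hH0]; trivial)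
  · have h1 : ∀ z ∈ Finset.range Z, finrank K (H (z + 1)) ≤ (Finset.univ.filter fun j => b j ∈ H (z + 1)).card := by
      intro z hz
      have hz' := Finset.mem_range.1 hz
      have h2 := Submodule.finrank_mono (hspan (z + 1) (by omega) (by omega))
      have h3 : (B ∩ H (z + 1) : Set V) = ((Finset.univ.filter fun j => b j ∈ H (z + 1)).image b : Finset V) := by
        ext v
        simp only [Set.mem_inter_iff, SetLike.mem_coe, Finset.coe_image, Finset.coe_filter, Finset.mem_univ, true_and,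
          Set.mem_image, Set.mem_ofPred_eq]
        constructor
        · rintro ⟨hv, hv'⟩
          refine ⟨e ⟨v, hv⟩, ?_, ?_⟩
          · rw [hb]
            simpa using hv'
          · rw [hb]
            simp
        · rintro ⟨j, hj, rfl⟩
          refine ⟨?_, hj⟩
          rw [hb]
          exact Subtype.coe_prop _
      rw [h3] at h2
      exact h2.trans ((finrank_span_finset_le_card _).trans Finset.card_image_le)
    refine (Finset.sum_le_sum h1).trans ?_
    simp only [Finset.card_filter]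
    rw [Finset.sum_comm]
    refine Finset.sum_le_sum fun j _ => ?_
    rw [← Finset.card_filter]
    have h2 : (Finset.range Z).filter (fun z => b j ∈ H (z + 1)) ⊆
        Finset.range (Nat.findGreatest (fun z => b j ∈ H z) Z) := by
      intro z hz
      rw [Finset.mem_filter, Finset.mem_range] at hz
      rw [Finset.mem_range]
      exact Nat.le_findGreatest (P := fun z => b j ∈ H z) (show z + 1 ≤ Z by omega) hz.2
    have h3 := Finset.card_le_card h2
    rwa [Finset.card_range] at h3

/-- **The basis for a weight.** -/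
theorem IsFil.exists_basis {ι : Type*} [Fintype ι] [DecidableEq ι] {T : Finset ι} {H : (ι → ℕ) → ℕ → Submodule K V}
    (h : IsFil T H) (t : ι → ℕ) (ht : ∀ i ∉ T, t i = 0) (N : ι → ℕ) :
    ∃ (b : Basis (Fin (finrank K V)) K V) (μ : Fin (finrank K V) → ℕ), (∀ j, b j ∈ H t (μ j)) ∧
      (∀ j, μ j ≤ ∑ i, t i * N i) ∧
      ∑ i, t i * ∑ x ∈ Finset.range (N i), finrank K (H (Pi.single i 1) (x + 1)) ≤ ∑ j, μ j := by
  obtain ⟨b, μ, h1, h2, h3⟩ := exists_adapted (H t) (h.anti t) (h.zero t) (∑ i, t i * N i)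
  exact ⟨b, μ, h1, h2, (h.sum_le t ht N).trans h3⟩

end Pool.Agent.RV
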