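import Pool.Agent.Helper80.RV.Defs
import Pool.Agent.Helper24.RV.Lin

/-!
# RV4: the sum of the dimensions for an integer weight
-/

set_option autoImplicit false

namespace Pool.Agent.SQ.RV

open Module MvPolynomial

universe u

section

variable {k : Type u} [Field k] {N q : ℕ}

private theorem finite_frm24 (P I : Ideal (MvPolynomial (Fin (N + 1)) k)) (m : ℕ) : FiniteDimensional k (frm P I m) := by
  have h1 : FiniteDimensional k (homogeneousSubmodule (Fin (N + 1)) k m) :=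
    Module.Finite.iff_fg.2 (homogeneousSubmodule_fg (Fin (N + 1)) k m)
  have h2 : FiniteDimensional k
      ((homogeneousSubmodule (Fin (N + 1)) k m).map (Ideal.Quotient.mkₐ k P).toLinearMap) := inferInstance
  exact Submodule.finiteDimensional_of_le (Submodule.map_mono (f := (Ideal.Quotient.mkₐ k P).toLinearMap)
    (inf_le_left : homogeneousSubmodule (Fin (N + 1)) k m ⊓ I.restrictScalars k ≤ _))

private theorem mem_frm24 (P I : Ideal (MvPolynomial (Fin (N + 1)) k)) (m : ℕ) (z : MvPolynomial (Fin (N + 1)) k ⧸ P) :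
    z ∈ frm P I m ↔ ∃ p ∈ I, p.IsHomogeneous m ∧ Ideal.Quotient.mk P p = z := by
  unfold frm
  rw [Submodule.mem_map]
  constructor
  · rintro ⟨p, hp, rfl⟩
    exact ⟨p, hp.2, (mem_homogeneousSubmodule _ _).1 hp.1, rfl⟩
  · rintro ⟨p, h1, h2, rfl⟩
    exact ⟨p, ⟨(mem_homogeneousSubmodule _ _).2 h2, h1⟩, rfl⟩

private theorem frm_mono24 (P : Ideal (MvPolynomial (Fin (N + 1)) k)) {I I' : Ideal (MvPolynomial (Fin (N + 1)) k)} (h : I ≤ I')
    (m : ℕ) : frm P I m ≤ frm P I' m := by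
  intro z hz
  rw [mem_frm24] at hz ⊢
  obtain ⟨p, h1, h2, h3⟩ := hz
  exact ⟨p, h h1, h2, h3⟩

private theorem frm_inf24 (P : Ideal (MvPolynomial (Fin (N + 1)) k)) {I I' : Ideal (MvPolynomial (Fin (N + 1)) k)} (h : P ≤ I')
    (m : ℕ) : frm P I m ⊓ frm P I' m ≤ frm P (I ⊓ I') m := by
  rintro z ⟨hz, hz'⟩
  rw [SetLike.mem_coe, mem_frm24] at hz hz'
  rw [mem_frm24]
  obtain ⟨p, h1, h2, h3⟩ := hz
  obtain ⟨p', h1', h2', h3'⟩ := hz'
  refine ⟨p, ⟨h1, ?_⟩, h2, h3⟩
  have h4 : p - p' ∈ P := Ideal.Quotient.eq.1 (h3.trans h3'.symm)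
  have h5 := I'.add_mem (h h4) h1'
  rwa [sub_add_cancel] at h5

/-- the statement RV4, with a truncation for each divisor, from RV2 and RV2' -/
theorem beta_of (P : Ideal (MvPolynomial (Fin (N + 1)) k)) (J : Fin q → Ideal (MvPolynomial (Fin (N + 1)) k))
    (T : Finset (Fin q)) (aut : ∀ u w : Fin q → ℕ, (∀ i ∉ T, u i = 0) → (∀ i ∉ T, w i = 0) → ∀ x y : ℕ,
      fil P J u x ⊓ fil P J w y ≤ fil P J (u + w) (x + y))
    (zero : ∀ u, fil P J u 0 = ⊤) (anti : ∀ u, Antitone (fil P J u)) (le : ∀ u x, P ≤ fil P J u x)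
    (single : ∀ i x, fil P J (Pi.single i 1) x = sat (P ⊔ J i ^ x)) (u : Fin q → ℕ) (hu : ∀ i ∉ T, u i = 0) (m : ℕ)
    (K : Fin q → ℕ) :
    ∑ i, u i * ∑ x ∈ Finset.range (K i), dimf P (sat (P ⊔ J i ^ (x + 1))) m ≤
      ∑ x ∈ Finset.range (∑ i, u i * K i), dimf P (fil P J u (x + 1)) m := by
  have : FiniteDimensional k (frm P ⊤ m) := finite_frm24 P ⊤ m
  have hfr : ∀ I : Ideal (MvPolynomial (Fin (N + 1)) k),
      finrank k ((frm P I m).comap (frm P ⊤ m).subtype) = dimf P I m := by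
    intro I
    exact (Submodule.comapSubtypeEquivOfLe (frm_mono24 P le_top m : frm P I m ≤ frm P ⊤ m)).finrank_eq
  have hfil : Pool.Agent.RV.IsFil T (fun (u : Fin q → ℕ) x => (frm P (fil P J u x) m).comap (frm P ⊤ m).subtype) := by
    refine ⟨fun t => ?_, fun t x y hxy => ?_, fun t t' ht ht' x y => ?_⟩
    · rw [zero, Submodule.comap_subtype_self]
    · exact Submodule.comap_mono (frm_mono24 P (anti t hxy) m)
    · rw [← Submodule.comap_inf]
      exact Submodule.comap_mono ((frm_inf24 P (le _ _) m).trans (frm_mono24 P (aut t t' ht ht' x y) m))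
  have h := hfil.sum_le u hu K
  simp only [hfr, single] at h
  exact h

end

end Pool.Agent.SQ.RV
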