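import Pool.Agent.Helper24.RV.Beta
import Pool.Agent.Helper21.RV.Gp
import Pool.Agent.Helper11.RV.Fil

/-!
# RV4
-/

set_option autoImplicit false

namespace Pool.Agent.SQ.RV

open Module MvPolynomial

universe u

variable {k : Type u} [Field k] {N q : ℕ}

/-- RV4, with a truncation for each divisor -/
theorem beta_sumK (P : Ideal (MvPolynomial (Fin (N + 1)) k)) (J : Fin q → Ideal (MvPolynomial (Fin (N + 1)) k))
    (T : Finset (Fin q)) (hT : GenPos P J T) (u : Fin q → ℕ) (hu : ∀ i ∉ T, u i = 0) (m : ℕ) (K : Fin q → ℕ) :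
    ∑ i, u i * ∑ x ∈ Finset.range (K i), dimf P (sat (P ⊔ J i ^ (x + 1))) m ≤
      ∑ x ∈ Finset.range (∑ i, u i * K i), dimf P (fil P J u (x + 1)) m :=
  beta_of P J T (fun u w hu hw x y => aut P J T hT u w hu hw x y) (fil_zero P J) (fil_anti P J) (le_fil P J)
    (fil_single P J) u hu m K

/-- RV4 -/
theorem beta_sum (P : Ideal (MvPolynomial (Fin (N + 1)) k)) (J : Fin q → Ideal (MvPolynomial (Fin (N + 1)) k))
    (T : Finset (Fin q)) (hT : GenPos P J T) (u : Fin q → ℕ) (hu : ∀ i ∉ T, u i = 0) (m K : ℕ) :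
    ∑ i, u i * ∑ x ∈ Finset.range K, dimf P (sat (P ⊔ J i ^ (x + 1))) m ≤
      ∑ x ∈ Finset.range ((∑ i, u i) * K), dimf P (fil P J u (x + 1)) m := by
  have h := beta_sumK P J T hT u hu m fun _ => K
  rwa [← Finset.sum_mul] at h

end Pool.Agent.SQ.RV
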