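import Mathlib

/-!
# Approximation of real weights by integer weights
-/

set_option autoImplicit false

namespace Pool.Agent.RV

variable {ι : Type*} [Fintype ι]

/-- nonnegative real numbers are, up to a small error, multiples of one real number by integers at
most `M` -/
theorem weight_choice (lam : ι → ℝ) (h0 : ∀ i, 0 ≤ lam i) (M : ℕ) (hM : 0 < M) :
    ∃ (t : ι → ℕ) (L : ℝ), 0 ≤ L ∧ (∀ i, t i ≤ M) ∧ (∀ i, t i * L ≤ lam i) ∧ (∀ i, lam i ≤ t i * L + L) ∧
      M * L = ∑ i, lam i := by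
  have hM' : (0 : ℝ) < M := by exact_mod_cast hM
  have hS : 0 ≤ ∑ i, lam i := Finset.sum_nonneg fun i _ => h0 i
  have hle : ∀ i, lam i ≤ ∑ i, lam i := fun i => Finset.single_le_sum (fun i _ => h0 i) (Finset.mem_univ i)
  rcases hS.eq_or_lt with hS0 | hS0
  · refine ⟨0, 0, le_rfl, fun i => Nat.zero_le _, fun i => by simpa using h0 i, fun i => ?_, by rw [← hS0]; simp⟩
    have := hle i
    rw [← hS0] at this
    simpa using this
  · have hL : 0 < (∑ i, lam i) / M := div_pos hS0 hM'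
    refine ⟨fun i => ⌊lam i / ((∑ i, lam i) / M)⌋₊, (∑ i, lam i) / M, hL.le, fun i => ?_, fun i => ?_, fun i => ?_, ?_⟩
    · have h1 : lam i / ((∑ i, lam i) / M) ≤ M := by
        rw [div_le_iff₀ hL, mul_div_cancel₀ _ hM'.ne']
        exact hle i
      have h2 := Nat.floor_mono h1
      rwa [Nat.floor_natCast] at h2
    · have h1 := Nat.floor_le (div_nonneg (h0 i) hL.le)
      rwa [le_div_iff₀ hL] at h1
    · have h1 := (Nat.lt_floor_add_one (lam i / ((∑ i, lam i) / M))).le
      rw [div_le_iff₀ hL] at h1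
      linarith
    · field_simp

/-- the inequality for the weights: `S i` is a lower bound for the sum of the dimensions, `c = m d` -/
theorem weight_sum (lam β S : ι → ℝ) (t : ι → ℕ) (L c ε : ℝ) (M : ℕ) (hM : 0 < M) (hL : 0 ≤ L) (hc : 0 ≤ c)
    (hε : 0 ≤ ε) (hβ : ∀ i, 0 ≤ β i) (h1 : ∀ i, t i * L ≤ lam i) (h2 : ∀ i, lam i ≤ t i * L + L)
    (h3 : M * L = ∑ i, lam i) (hS : ∀ i, (β i - ε) * c ≤ S i) :
    c * ∑ i, β i * lam i ≤ L * ∑ i, t i * S i + c * (ε + (∑ i, β i) / M) * ∑ i, lam i := by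
  have hM' : (0 : ℝ) < M := by exact_mod_cast hM
  have key : ∀ i, c * (β i * lam i) ≤ L * (t i * S i) + c * ε * lam i + c * β i * L := by
    intro i
    have ht : 0 ≤ t i * L := mul_nonneg (Nat.cast_nonneg _) hL
    have e1 : c * (β i * lam i) ≤ c * (β i * (t i * L + L)) :=
      mul_le_mul_of_nonneg_left (mul_le_mul_of_nonneg_left (h2 i) (hβ i)) hc
    have e2 : (β i - ε) * c * (t i * L) ≤ S i * (t i * L) := mul_le_mul_of_nonneg_right (hS i) ht
    have e3 : c * ε * (t i * L) ≤ c * ε * lam i := mul_le_mul_of_nonneg_left (h1 i) (mul_nonneg hc hε)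
    nlinarith [e1, e2, e3]
  have e := Finset.sum_le_sum fun i (_ : i ∈ Finset.univ) => key i
  rw [Finset.sum_add_distrib, Finset.sum_add_distrib, ← Finset.mul_sum, ← Finset.mul_sum, ← Finset.mul_sum,
    ← Finset.sum_mul, ← Finset.mul_sum] at e
  have e4 : c * (∑ i, β i) * L = c * ((∑ i, β i) / M) * ∑ i, lam i := by
    rw [← h3]
    field_simp
  rw [e4] at e
  linarith

end Pool.Agent.RV
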