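import Pool.Agent.Helper24.RV.Lin

/-!
# RV3: two filtrations
-/

set_option autoImplicit false

namespace Pool.Agent.SQ.RV

open Module

universe u v

variable {k : Type u} [Field k]

/-- RV3: two filtrations and a third one -/
theorem sup_add {V : Type v} [AddCommGroup V] [Module k V] [FiniteDimensional k V] (F F' F'' : ℕ → Submodule k V)
    (hF0 : F 0 = ⊤) (hF : Antitone F) (hF'0 : F' 0 = ⊤) (hF' : Antitone F') (hF'' : Antitone F'')
    (h : ∀ x y, F x ⊓ F' y ≤ F'' (x + y)) (K K' : ℕ) :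
    ∑ x ∈ Finset.range K, finrank k (F (x + 1)) + ∑ x ∈ Finset.range K', finrank k (F' (x + 1)) ≤
      ∑ x ∈ Finset.range (K + K'), finrank k (F'' (x + 1)) :=
  Pool.Agent.RV.two_filtrations F F' F'' K K' hF hF0 hF'0 hF'' h

end Pool.Agent.SQ.RV
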